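import Mathlib

set_option autoImplicit false

open Combinatorics

namespace Pool.Agent.Results.MP_f16d24_co.InfiniteFields

/-- The sets of steps used in the proof: the nonzero elements of an infinite field, or the positive
elements of an ordered field. -/
structure Good {K : Type*} [Field K] (T : Set K) : Prop where
  ne : ∀ t ∈ T, t ≠ 0
  mul : ∀ s ∈ T, ∀ t ∈ T, s * t ∈ T
  inv : ∀ t ∈ T, t⁻¹ ∈ T
  shift : ∀ J : Finset K, ∃ j0, ∀ j ∈ J, j + j0 ∈ T
  wt : ∀ n : ℕ, ∃ w : Fin n → K, ∀ S : Finset (Fin n), S.Nonempty → ∑ i ∈ S, w i ∈ T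

theorem Good.one {K : Type*} [Field K] {T : Set K} (hT : Good T) : (1 : K) ∈ T := by
  obtain ⟨w, hw⟩ := hT.wt 1
  have h := hw {0} ⟨0, by simp⟩
  have h2 := hT.mul _ h _ (hT.inv _ h)
  rwa [mul_inv_cancel₀ (hT.ne _ h)] at h2

theorem Good.pow {K : Type*} [Field K] {T : Set K} (hT : Good T) {s : K} (hs : s ∈ T) (n : ℕ) :
    s ^ n ∈ T := by
  induction n with
  | zero => simpa using hT.one
  | succ n ih =>
    rw [pow_succ]
    exact hT.mul _ ih _ hs

theorem Good.zpow {K : Type*} [Field K] {T : Set K} (hT : Good T) {s : K} (hs : s ∈ T) (n : ℤ) :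
    s ^ n ∈ T := by
  cases n with
  | ofNat n =>
    rw [Int.ofNat_eq_natCast, zpow_natCast]
    exact hT.pow hs n
  | negSucc n =>
    rw [zpow_negSucc]
    exact hT.inv _ (hT.pow hs _)

theorem prod_zpow_sum {K : Type*} [Field K] {ι : Type*} (S : Finset ι) (n : ι → ℤ) {s : K}
    (hs : s ≠ 0) : ∏ l ∈ S, s ^ n l = s ^ ∑ l ∈ S, n l := by
  classical
  induction S using Finset.induction_on with
  | empty => simp
  | insert a S ha ih => rw [Finset.prod_insert ha, Finset.sum_insert ha, zpow_add₀ hs, ih]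

variable {K : Type*} [Field K] {k : ℕ}

/-- Homothetic copies with steps from a finite set of good steps, from the Hales-Jewett theorem. -/
theorem vdw {T : Set K} (hT : Good T) (κ : Type) [Finite κ] (A : Finset (Fin k → K)) :
    ∃ (Sg : Finset K) (B : Finset (Fin k → K)), (∀ s ∈ Sg, s ∈ T) ∧
      ∀ C : (Fin k → K) → κ, ∃ s ∈ Sg, ∃ (z : Fin k → K) (col : κ), ∀ a ∈ A,
        z + s • a ∈ B ∧ C (z + s • a) = col := by
  classical
  obtain ⟨ι, hι, H⟩ := Line.exists_mono_in_high_dimension A κ
  obtain ⟨w0, hw0⟩ := hT.wt (Fintype.card ι)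
  let e : ι ≃ Fin (Fintype.card ι) := Fintype.equivFin ι
  let w : ι → K := fun i => w0 (e i)
  have hw : ∀ S : Finset ι, S.Nonempty → ∑ i ∈ S, w i ∈ T := by
    intro S hS
    have := hw0 (S.map e.toEmbedding) (hS.map)
    rwa [Finset.sum_map] at this
  let φ : (ι → A) → (Fin k → K) := fun v => ∑ i, w i • (v i : Fin k → K)
  refine ⟨((Finset.univ : Finset (Finset ι)).filter (fun S => S.Nonempty)).image
    (fun S => ∑ i ∈ S, w i), (Finset.univ : Finset (ι → A)).image φ, ?_, ?_⟩
  · intro s hs
    rw [Finset.mem_image] at hs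
    obtain ⟨S, hS, rfl⟩ := hs
    exact hw S (Finset.mem_filter.1 hS).2
  · intro C
    obtain ⟨l, col, hl⟩ := H (fun v => C (φ v))
    set S : Finset ι := Finset.univ.filter (fun i => l.idxFun i = none) with hS
    have hSn : S.Nonempty := by
      obtain ⟨i, hi⟩ := l.proper
      exact ⟨i, by simp [hS, hi]⟩
    refine ⟨∑ i ∈ S, w i, Finset.mem_image.2 ⟨S, by simp [hSn], rfl⟩,
      ∑ i, (match l.idxFun i with
        | none => 0
        | some a => w i • (a : Fin k → K)), col, ?_⟩
    intro a ha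
    have key : φ (l ⟨a, ha⟩) = (∑ i, (match l.idxFun i with
        | none => 0
        | some a => w i • (a : Fin k → K))) + (∑ i ∈ S, w i) • a := by
      have h1 : ∀ i, w i • ((l (⟨a, ha⟩ : A) i : A) : Fin k → K) = (match l.idxFun i with
        | none => 0
        | some a => w i • (a : Fin k → K)) + (if l.idxFun i = none then w i • a else 0) := by
        intro i
        rw [Line.coe_apply]
        cases h : l.idxFun i with
        | none => simp
        | some b => simp
      show ∑ i, w i • ((l (⟨a, ha⟩ : A) i : A) : Fin k → K) = _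
      rw [Finset.sum_congr rfl (fun i _ => h1 i), Finset.sum_add_distrib, ← Finset.sum_filter,
        Finset.sum_smul]
    rw [← key]
    exact ⟨Finset.mem_image.2 ⟨_, Finset.mem_univ _, rfl⟩, hl ⟨a, ha⟩⟩

/-- A finite form of the theorem, on a grid: the row `j` has a configuration with the steps `d` and
there is one more point above it at the height `∏ d ^ n`. -/
theorem grid {T : Set K} (hT : Good T) (κ : Type) [Finite κ] (n m : Fin k → ℤ)
    (hnm : ∑ l, m l * n l = 1) (A : Finset (Fin k → K)) : ∀ r : ℕ, ∃ (I : Finset (Fin k → K))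
      (J : Finset K) (Δ : Finset (Fin k → K)), (∀ d ∈ Δ, ∀ l, d l ∈ T) ∧
      ∀ (C : (Fin k → K) → K → κ) (S : Finset κ), S.card ≤ r →
        (∀ i ∈ I, ∀ j ∈ J, C i j ∈ S) → ∃ (i : Fin k → K) (j : K), ∃ d ∈ Δ,
          (∀ t ∈ A, C (i + t * d) j = C i j) ∧ C i (j + ∏ l, d l ^ n l) = C i j := by
  classical
  intro r
  induction r with
  | zero =>
    refine ⟨{0}, {0}, ∅, by simp, fun C S hS hC => ?_⟩
    have h := hC 0 (by simp) 0 (by simp)
    rw [Finset.card_eq_zero.mp (Nat.le_zero.mp hS)] at h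
    exact absurd h (Finset.notMem_empty _)
  | succ r ih =>
    obtain ⟨I, J, Δ, hΔ, H⟩ := ih
    obtain ⟨j0, hj0⟩ := hT.shift J
    let μ : K → Fin k → K := fun j l => (j + j0) ^ m l
    let N : ℤ := ∑ l, n l
    have hμT : ∀ j ∈ J, ∀ l, μ j l ∈ T := fun j hj l => hT.zpow (hj0 j hj) _
    have hμp : ∀ j ∈ J, ∏ l, μ j l ^ n l = j + j0 := by
      intro j hj
      have h0 : j + j0 ≠ 0 := hT.ne _ (hj0 j hj)
      have h1 : ∀ l, μ j l ^ n l = (j + j0) ^ (m l * n l) := fun l => (zpow_mul _ _ _).symm
      rw [Finset.prod_congr rfl (fun l _ => h1 l), prod_zpow_sum _ _ h0, hnm, zpow_one]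
    have hsp : ∀ (s : K) (d : Fin k → K), s ≠ 0 →
        ∏ l, (s • d) l ^ n l = s ^ N * ∏ l, d l ^ n l := by
      intro s d hs
      have h1 : ∀ l, (s • d) l ^ n l = s ^ n l * d l ^ n l := fun l => mul_zpow _ _ _
      rw [Finset.prod_congr rfl (fun l _ => h1 l), Finset.prod_mul_distrib, prod_zpow_sum _ _ hs]
    let A' : Finset (Fin k → K) := insert 0 (I ∪
      (I ×ˢ J ×ˢ A).image (fun p => p.1 + p.2.2 * μ p.2.1))
    obtain ⟨Sg, B, hSg, hvdw⟩ := vdw hT κ A'
    refine ⟨B, insert 0 ((J ×ˢ Sg).image (fun p => (p.1 + j0) * p.2 ^ N)),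
      (Sg ×ˢ J).image (fun p => p.1 • μ p.2) ∪ (Sg ×ˢ Δ).image (fun p => p.1 • p.2), ?_, ?_⟩
    · intro d hd l
      rw [Finset.mem_union, Finset.mem_image, Finset.mem_image] at hd
      rcases hd with ⟨p, hp, rfl⟩ | ⟨p, hp, rfl⟩
      · rw [Finset.mem_product] at hp
        exact hT.mul _ (hSg _ hp.1) _ (hμT _ hp.2 l)
      · rw [Finset.mem_product] at hp
        exact hT.mul _ (hSg _ hp.1) _ (hΔ _ hp.2 l)
    · intro C S hS hC
      obtain ⟨s, hs, z, col, hz⟩ := hvdw (fun i => C i 0)
      have hs0 : s ≠ 0 := hT.ne _ (hSg s hs)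
      have hcol : col ∈ S := by
        have h0 := hz 0 (Finset.mem_insert_self _ _)
        rw [← h0.2]
        exact hC _ h0.1 0 (Finset.mem_insert_self _ _)
      have hIA : ∀ i ∈ I, i ∈ A' := fun i hi =>
        Finset.mem_insert_of_mem (Finset.mem_union_left _ hi)
      by_cases hcase : ∃ i ∈ I, ∃ j ∈ J, C (z + s • i) ((j + j0) * s ^ N) = col
      · obtain ⟨i, hi, j, hj, hij⟩ := hcase
        have hi0 : C (z + s • i) 0 = col := (hz i (hIA i hi)).2
        refine ⟨z + s • i, 0, s • μ j, Finset.mem_union_left _ (Finset.mem_image.2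
          ⟨(s, j), Finset.mem_product.2 ⟨hs, hj⟩, rfl⟩), ?_, ?_⟩
        · intro t ht
          rw [hi0]
          have h1 : i + t * μ j ∈ A' := Finset.mem_insert_of_mem (Finset.mem_union_right _
            (Finset.mem_image.2 ⟨(i, j, t), by simp [hi, hj, ht], rfl⟩))
          have h2 := (hz _ h1).2
          rw [← h2]
          congr 1
          rw [smul_add, add_assoc, mul_smul_comm]
        · rw [hi0, ← hij, hsp _ _ hs0, hμp j hj]
          congr 1
          rw [zero_add, mul_comm]
      · push Not at hcase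
        obtain ⟨i, j, d, hd, h1, h2⟩ := H
          (fun i j => C (z + s • i) ((j + j0) * s ^ N)) (S.erase col)
          (by rw [Finset.card_erase_of_mem hcol]; omega)
          (by
            intro i hi j hj
            rw [Finset.mem_erase]
            refine ⟨hcase i hi j hj, hC _ (hz i (hIA i hi)).1 _ ?_⟩
            exact Finset.mem_insert_of_mem (Finset.mem_image.2
              ⟨(j, s), Finset.mem_product.2 ⟨hj, hs⟩, rfl⟩))
        refine ⟨z + s • i, (j + j0) * s ^ N, s • d, Finset.mem_union_right _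
          (Finset.mem_image.2 ⟨(s, d), Finset.mem_product.2 ⟨hs, hd⟩, rfl⟩), ?_, ?_⟩
        · intro t ht
          rw [← h1 t ht]
          congr 1
          rw [smul_add, add_assoc, mul_smul_comm]
        · rw [← h2, hsp _ _ hs0]
          congr 1
          ring

/-- The form of the theorem which is used: the colouring is scaled by `u`. -/
theorem scaled {T : Set K} (hT : Good T) (κ : Type) [Finite κ] (n m : Fin k → ℤ)
    (hnm : ∑ l, m l * n l = 1) (A : Finset (Fin k → K)) :
    ∃ Δ : Finset (Fin k → K), (∀ d ∈ Δ, ∀ l, d l ∈ T) ∧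
      ∀ (c : K → κ) (e u : K), u ≠ 0 → ∃ x : K, ∃ d ∈ Δ,
        (∀ t ∈ A, c (x + ∑ l, t l * (u * d l)) = c x) ∧
        c (x + e * ∏ l, (u * d l) ^ n l) = c x := by
  classical
  have := Fintype.ofFinite κ
  obtain ⟨I, J, Δ, hΔ, H⟩ := grid hT κ n m hnm A (Fintype.card κ)
  refine ⟨Δ, hΔ, fun c e u hu => ?_⟩
  obtain ⟨i, j, d, hd, h1, h2⟩ := H (fun i j => c (∑ l, u * i l + e * u ^ (∑ l, n l) * j))
    Finset.univ (le_of_eq (Finset.card_univ)) (fun _ _ _ _ => Finset.mem_univ _)
  refine ⟨∑ l, u * i l + e * u ^ (∑ l, n l) * j, d, hd, ?_, ?_⟩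
  · intro t ht
    rw [← h1 t ht]
    congr 1
    have : ∑ l, u * (i + t * d) l = ∑ l, u * i l + ∑ l, t l * (u * d l) := by
      rw [← Finset.sum_add_distrib]
      refine Finset.sum_congr rfl fun l _ => ?_
      simp only [Pi.add_apply, Pi.mul_apply]
      ring
    rw [this]
    ring
  · rw [← h2]
    congr 1
    have h1 : ∀ l, (u * d l) ^ n l = u ^ n l * d l ^ n l := fun l => mul_zpow _ _ _
    rw [Finset.prod_congr rfl (fun l _ => h1 l), Finset.prod_mul_distrib, prod_zpow_sum _ _ hu]
    ring

/-- the nonzero elements of an infinite field -/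
theorem good_ne (K : Type*) [Field K] [Infinite K] : Good {t : K | t ≠ 0} where
  ne := fun t ht => ht
  mul := fun s hs t ht => mul_ne_zero hs ht
  inv := fun t ht => inv_ne_zero ht
  shift := by
    classical
    intro J
    obtain ⟨j0, hj0⟩ := Infinite.exists_notMem_finset (J.image (fun j => -j))
    refine ⟨j0, fun j hj h => hj0 ?_⟩
    rw [Finset.mem_image]
    exact ⟨j, hj, (eq_neg_of_add_eq_zero_right h).symm⟩
  wt := by
    classical
    intro n
    induction n with
    | zero =>
      refine ⟨fun _ => 0, fun S hS => ?_⟩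
      obtain ⟨i, _⟩ := hS
      exact i.elim0
    | succ n ih =>
      obtain ⟨w, hw⟩ := ih
      obtain ⟨a, ha⟩ := Infinite.exists_notMem_finset
        (insert 0 ((Finset.univ : Finset (Finset (Fin n))).image (fun S => -∑ i ∈ S, w i)))
      rw [Finset.mem_insert, not_or] at ha
      refine ⟨Fin.cons a w, fun S hS => ?_⟩
      let S' : Finset (Fin n) := Finset.univ.filter (fun i => Fin.succ i ∈ S)
      have hsum : ∑ i ∈ S, (Fin.cons a w : Fin (n + 1) → K) i =
          (if (0 : Fin (n + 1)) ∈ S then a else 0) + ∑ i ∈ S', w i := by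
        rw [← Finset.sum_filter_add_sum_filter_not S (fun i => i = 0)]
        congr 1
        · rw [Finset.sum_filter]
          simp [Finset.sum_ite_eq']
        · have : S.filter (fun i => ¬ i = 0) = S'.map (Fin.succEmb n) := by
            ext i
            simp only [Finset.mem_filter, Finset.mem_map, S', Finset.mem_univ, true_and]
            constructor
            · rintro ⟨h1, h2⟩
              obtain ⟨m, rfl⟩ := Fin.exists_succ_eq.2 h2
              exact ⟨m, h1, rfl⟩
            · rintro ⟨m, h1, rfl⟩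
              exact ⟨h1, Fin.succ_ne_zero m⟩
          rw [this, Finset.sum_map]
          simp
      rw [Set.mem_ofPred_eq, hsum]
      by_cases h0 : (0 : Fin (n + 1)) ∈ S
      · rw [if_pos h0]
        intro h
        exact ha.2 (Finset.mem_image.2 ⟨S', Finset.mem_univ _, (eq_neg_of_add_eq_zero_left h).symm⟩)
      · rw [if_neg h0, zero_add]
        apply hw
        obtain ⟨i, hi⟩ := hS
        have hi0 : i ≠ 0 := fun h => h0 (h ▸ hi)
        obtain ⟨m, rfl⟩ := Fin.exists_succ_eq.2 hi0
        exact ⟨m, by simp [S', hi]⟩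

/-- the positive rational numbers -/
theorem good_pos : Good {t : ℚ | 0 < t} where
  ne := fun t ht => by
    have h : 0 < t := ht
    exact h.ne'
  mul := fun s hs t ht => by
    have h1 : 0 < s := hs
    have h2 : 0 < t := ht
    have h3 : 0 < s * t := mul_pos h1 h2
    exact h3
  inv := fun t ht => by
    have h : 0 < t := ht
    have h2 : 0 < t⁻¹ := inv_pos.2 h
    exact h2
  shift := by
    intro J
    refine ⟨∑ j ∈ J, |j| + 1, fun j hj => ?_⟩
    have h1 : |j| ≤ ∑ j ∈ J, |j| := Finset.single_le_sum (f := fun j => |j|)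
      (fun i _ => abs_nonneg i) hj
    have h2 := neg_abs_le j
    have h3 : 0 < j + (∑ j ∈ J, |j| + 1) := by linarith
    exact h3
  wt := fun n => ⟨fun _ => 1, fun S hS => by
    have h : (0 : ℚ) < ∑ i ∈ S, (1 : ℚ) := Finset.sum_pos (fun _ _ => one_pos) hS
    exact h⟩

/-- Bezout's identity for several integers. -/
theorem bezout {k : ℕ} (n : Fin k → ℤ) (hn : Finset.univ.gcd n = 1) :
    ∃ m : Fin k → ℤ, ∑ l, m l * n l = 1 := by
  have h1 : Ideal.span (Set.range n) = ⊤ := by
    rw [Ideal.eq_top_iff_one]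
    have h2 : Submodule.IsPrincipal (Ideal.span (Set.range n)) := inferInstance
    obtain ⟨g, hg⟩ := h2
    have h3 : ∀ l, g ∣ n l := by
      intro l
      have h4 : n l ∈ Ideal.span (Set.range n) := Ideal.subset_span ⟨l, rfl⟩
      rw [hg] at h4
      exact Ideal.mem_span_singleton.1 h4
    have h5 : g ∣ 1 := by
      rw [← hn]
      exact Finset.dvd_gcd fun l _ => h3 l
    rw [hg]
    exact Ideal.mem_span_singleton.2 h5
  have h2 : (1 : ℤ) ∈ Ideal.span (Set.range n) := by
    rw [h1]
    exact Submodule.mem_top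
  obtain ⟨m, hm⟩ := (Submodule.mem_span_range_iff_exists_fun ℤ).1 h2
  exact ⟨m, by simpa [smul_eq_mul] using hm⟩

/-- **Patterns `{x + ∑ t_i d_i, x + e ∏ d_i ^ n_i}` are partition regular over all infinite fields,
for all integers `n_i` (of any sign) without common divisor.**

(1) Let `R` be an infinite integral domain with field of fractions `K` (for instance `R = ℤ`,
`K = ℚ`, or `R = K` an infinite field), `n_1, …, n_k` integers with greatest common divisor one,
`A` a finite set of vectors of length `k` over `K`, `e ∈ K` and `D` a finite subset of `R`. For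
every colouring `c` of `K` with finitely many colours there are `x ∈ K` and nonzero elements
`d_1, …, d_k` of `R`, none of them in `D`, such that `x`, the points `x + ∑ t_i d_i` with `t ∈ A`,
and `x + e d_1 ^ n_1 ⋯ d_k ^ n_k` have the same colour.

(2) For `K = ℚ` the `d_i` can be taken to be positive integers larger than any given bound. The case
`k = 1`, `n_1 = -1`, `A = {1}`, `e = 1` is the question: the pattern `{x, x + d, x + 1 / d}`.

(3) The answer to the question, in its own words. -/
theorem result :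
    (∀ (R K : Type) [CommRing R] [IsDomain R] [Infinite R] [Field K] [Algebra R K]
      [IsFractionRing R K] (κ : Type) [Finite κ] (c : K → κ) (k : ℕ) (n : Fin k → ℤ),
      Finset.univ.gcd n = 1 → ∀ (A : Finset (Fin k → K)) (e : K) (D : Finset R),
        ∃ (x : K) (d : Fin k → R), (∀ i, d i ≠ 0 ∧ d i ∉ D) ∧
          (∀ t ∈ A, c (x + ∑ i, t i * algebraMap R K (d i)) = c x) ∧
          c (x + e * ∏ i, algebraMap R K (d i) ^ n i) = c x) ∧
    (∀ (κ : Type) [Finite κ] (c : ℚ → κ) (k : ℕ) (n : Fin k → ℤ), Finset.univ.gcd n = 1 →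
      ∀ (A : Finset (Fin k → ℚ)) (e : ℚ) (D : ℕ),
        ∃ (x : ℚ) (d : Fin k → ℕ), (∀ i, D < d i) ∧
          (∀ t ∈ A, c (x + ∑ i, t i * (d i : ℚ)) = c x) ∧
          c (x + e * ∏ i, (d i : ℚ) ^ n i) = c x) ∧
    (∀ (r : ℕ) (c : ℚ → Fin r), ∃ x d : ℚ, d ≠ 0 ∧ c x = c (x + d) ∧ c x = c (x + 1 / d)) := by
  classical
  have h2 : ∀ (κ : Type) [Finite κ] (c : ℚ → κ) (k : ℕ) (n : Fin k → ℤ), Finset.univ.gcd n = 1 →
      ∀ (A : Finset (Fin k → ℚ)) (e : ℚ) (D : ℕ),
        ∃ (x : ℚ) (d : Fin k → ℕ), (∀ i, D < d i) ∧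
          (∀ t ∈ A, c (x + ∑ i, t i * (d i : ℚ)) = c x) ∧
          c (x + e * ∏ i, (d i : ℚ) ^ n i) = c x := by
    intro κ _ c k n hn A e D
    obtain ⟨m, hnm⟩ := bezout n hn
    obtain ⟨Δ, hΔ, H⟩ := scaled good_pos κ n m hnm A
    -- a common denominator
    let N : ℕ := ∏ d ∈ Δ, ∏ l, (d l).den
    have hN : 0 < N := Finset.prod_pos fun d _ => Finset.prod_pos fun l _ => (d l).den_pos
    have hint : ∀ d ∈ Δ, ∀ l, ∃ m : ℕ, 0 < m ∧ (N : ℚ) * d l = m := by
      intro d hd l
      have h3 : (d l).den ∣ N :=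
        (Finset.dvd_prod_of_mem (fun l => (d l).den) (Finset.mem_univ l)).trans
          (Finset.dvd_prod_of_mem (fun d => ∏ l, (d l).den) hd)
      obtain ⟨a, ha⟩ := h3
      have hpos : 0 < d l := hΔ d hd l
      have hnum : 0 < (d l).num := Rat.num_pos.2 hpos
      have ha0 : 0 < a := by
        rcases Nat.eq_zero_or_pos a with h | h
        · rw [h, mul_zero] at ha
          omega
        · exact h
      refine ⟨a * (d l).num.toNat, Nat.mul_pos ha0 (by omega), ?_⟩
      have h4 : ((d l).num.toNat : ℚ) = (d l).num := by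
        have : (((d l).num.toNat : ℤ) : ℚ) = (d l).num := by
          rw [Int.toNat_of_nonneg hnum.le]
        exact_mod_cast this
      have h5 : (d l : ℚ) * (d l).den = (d l).num := Rat.mul_den_eq_num (d l)
      rw [ha]
      push_cast
      rw [h4, ← h5]
      ring
    obtain ⟨x, d, hd, h3, h4⟩ := H c e (((D + 1) * N : ℕ) : ℚ)
      (by exact_mod_cast (Nat.mul_pos (Nat.succ_pos D) hN).ne')
    choose q hm using fun l => hint d hd l
    have hcast : ∀ l, (((D + 1) * N : ℕ) : ℚ) * d l = (((D + 1) * q l : ℕ) : ℚ) := by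
      intro l
      push_cast
      rw [mul_assoc, (hm l).2]
    refine ⟨x, fun l => (D + 1) * q l, fun i => ?_, fun t ht => ?_, ?_⟩
    · calc D < D + 1 := Nat.lt_succ_self D
        _ = (D + 1) * 1 := (Nat.mul_one _).symm
        _ ≤ (D + 1) * q i := Nat.mul_le_mul_left _ (hm i).1
    · have := h3 t ht
      simp only [hcast] at this
      exact this
    · simp only [hcast] at h4
      exact h4
  refine ⟨?_, h2, ?_⟩
  · intro R K _ _ _ _ _ _ κ _ c k n hn A e D
    obtain ⟨m, hnm⟩ := bezout n hn
    have : Infinite K := Infinite.of_injective _ (IsFractionRing.injective R K)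
    obtain ⟨Δ, hΔ, H⟩ := scaled (good_ne K) κ n m hnm A
    obtain ⟨b, hb⟩ := IsLocalization.exist_integer_multiples_of_finset (nonZeroDivisors R)
      (Δ.biUnion (fun d => (Finset.univ : Finset (Fin k)).image d))
    have hint : ∀ d ∈ Δ, ∀ l, ∃ m : R, algebraMap R K m = algebraMap R K b * d l := by
      intro d hd l
      have h3 : d l ∈ Δ.biUnion (fun d => (Finset.univ : Finset (Fin k)).image d) :=
        Finset.mem_biUnion.2 ⟨d, hd, Finset.mem_image.2 ⟨l, Finset.mem_univ _, rfl⟩⟩
      obtain ⟨m, hm⟩ := hb (d l) h3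
      exact ⟨m, by rw [hm, Algebra.smul_def]⟩
    have hb0 : (b : R) ≠ 0 := nonZeroDivisors.ne_zero b.2
    have hbK : algebraMap R K b ≠ 0 := by
      intro h
      exact hb0 (IsFractionRing.injective R K (by rw [h, map_zero]))
    -- the values of `v` to be avoided
    obtain ⟨v, hv⟩ := Set.Infinite.exists_notMem_finset (Set.infinite_univ (α := R))
      (insert 0 (((Δ ×ˢ (Finset.univ : Finset (Fin k))) ×ˢ D).biUnion (fun p =>
        if h : ∃ v : R, algebraMap R K v * (algebraMap R K b * p.1.1 p.1.2) =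
          algebraMap R K p.2 then {h.choose} else ∅)))
    have hv1 := hv.2
    rw [Finset.mem_insert, not_or] at hv1
    have hvK : algebraMap R K v ≠ 0 := by
      intro h
      exact hv1.1 (IsFractionRing.injective R K (by rw [h, map_zero]))
    obtain ⟨x, d, hd, h3, h4⟩ := H c e (algebraMap R K v * algebraMap R K b)
      (mul_ne_zero hvK hbK)
    choose q hm using fun l => hint d hd l
    have hcast : ∀ l, algebraMap R K v * algebraMap R K b * d l = algebraMap R K (v * q l) := by
      intro l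
      rw [map_mul, hm l, mul_assoc]
    refine ⟨x, fun l => v * q l, fun l => ⟨?_, ?_⟩, fun t ht => ?_, ?_⟩
    · intro h
      have h5 := hcast l
      have h' : v * q l = 0 := h
      rw [h', map_zero] at h5
      exact (mul_ne_zero (mul_ne_zero hvK hbK) (hΔ d hd l)) h5
    · intro h
      apply hv1.2
      rw [Finset.mem_biUnion]
      refine ⟨((d, l), v * q l), by simp [hd, h], ?_⟩
      have hex : ∃ v' : R, algebraMap R K v' * (algebraMap R K b * d l) =
          algebraMap R K (v * q l) := ⟨v, by rw [← hcast l, mul_assoc]⟩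
      simp only
      rw [dif_pos hex, Finset.mem_singleton]
      have h5 := hex.choose_spec
      have h6 : algebraMap R K hex.choose = algebraMap R K v := by
        have h7 : algebraMap R K b * d l ≠ 0 := mul_ne_zero hbK (hΔ d hd l)
        apply mul_right_cancel₀ h7
        rw [h5, ← hcast l, mul_assoc]
      exact (IsFractionRing.injective R K h6).symm
    · have := h3 t ht
      simp only [hcast] at this
      exact this
    · simp only [hcast] at h4
      exact h4
  · intro r c
    obtain ⟨x, d, hd, h3, h4⟩ := h2 (Fin r) c 1 (fun _ => -1) (by decide) {fun _ => 1} 1 0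
    have h5 : ((d 0 : ℕ) : ℚ) ≠ 0 := by exact_mod_cast (hd 0).ne'
    refine ⟨x, d 0, h5, ?_, ?_⟩
    · have := h3 (fun _ => 1) (by simp)
      simpa using this.symm
    · simpa using h4.symm

end Pool.Agent.Results.MP_f16d24_co.InfiniteFields
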